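import Mathlib
import Pool.Agent.R828.CP.Cor
import Pool.Agent.R828.CP.Sub
import Pool.Agent.R828.CP.Lots

/-!
# Point-countable `π`-bases of `C_p(X)` for scattered compact `X`: cardinality at most `ℵ₁`, finite
height, linearly ordered spaces

It is consistent that there is a scattered compact space `X` of cardinality `𝔠⁺` such that `C_p(X)`
has no point-countable `π`-base (`NotProvable`). Here it is proved in ZFC that `C_p(X)` has a
point-countable `π`-base for every scattered compact space `X`

* of cardinality at most `ℵ₁`, or
* of finite Cantor-Bendixson height, or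
* whose topology is the topology of a linear order.

The general reason is the following criterion for all infinite compact spaces `X`: there are `|X|`
points `d` with partners `r d ≠ d` such that every continuous real function satisfies
`|f d - f (r d)| ≤ 1` for all but countably many of these `d`. Such pairs exist if there are sets
`D n` and closed sets `L n` for all natural numbers `n` with `ℵ₀, |L n| < |D n|`, `D n \ V` countable
for all open `V ⊇ L n`, and `|⋃ D n| = |X|`; for instance if `|S'| < |S| = |X|` for a closed set `S`
with the derived set `S'`. Finally, if a closed subset `Y` of a compact space `X` has the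
cardinality of `X`, then a point-countable `π`-base of `C_p(Y)` gives one for `C_p(X)`.
-/

set_option autoImplicit false

namespace Pool.Agent.Results.MP_c0a969_gt.SmallOrShort

open Cardinal

/-- the set of functions is open in the topology of pointwise convergence -/
def PointwiseOpen {X : Type} [TopologicalSpace X] (B : Set C(X, ℝ)) : Prop :=
  @IsOpen C(X, ℝ) (TopologicalSpace.induced (fun f : C(X, ℝ) => (f : X → ℝ)) inferInstance) B

/-- `C_p(X)` has a point-countable `π`-base -/
def PointCountable (X : Type) [TopologicalSpace X] : Prop :=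
  ∃ 𝓑 : Set (Set C(X, ℝ)), (∀ B ∈ 𝓑, PointwiseOpen B ∧ B.Nonempty) ∧
    (∀ U : Set C(X, ℝ), PointwiseOpen U → U.Nonempty → ∃ B ∈ 𝓑, B ⊆ U) ∧
    (∀ f : C(X, ℝ), {B ∈ 𝓑 | f ∈ B}.Countable)

/-- every nonempty subset has a relatively isolated point -/
def Scattered (X : Type) [TopologicalSpace X] : Prop :=
  ∀ s : Set X, s.Nonempty → ∃ x ∈ s, ∃ U : Set X, IsOpen U ∧ U ∩ s = {x}

theorem result :
    -- scattered compact spaces of cardinality at most `ℵ₁`
    (∀ (X : Type) [TopologicalSpace X] [T2Space X] [CompactSpace X],
      Scattered X → #X ≤ ℵ₁ → PointCountable X) ∧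
    -- compact spaces of finite Cantor-Bendixson height
    (∀ (X : Type) [TopologicalSpace X] [T2Space X] [CompactSpace X] (n : ℕ),
      (derivedSet : Set X → Set X)^[n] Set.univ = ∅ → PointCountable X) ∧
    -- scattered compact linearly ordered spaces
    (∀ (X : Type) [LinearOrder X] [TopologicalSpace X] [OrderTopology X] [CompactSpace X],
      Scattered X → PointCountable X) ∧
    -- a closed set of full cardinality whose derived set is smaller
    (∀ (X : Type) [TopologicalSpace X] [T2Space X] [CompactSpace X] (S : Set X), IsClosed S →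
      #X ≤ #S → #(derivedSet S) < #X → PointCountable X) ∧
    -- countably many families, each with few condensation points
    (∀ (X : Type) [TopologicalSpace X] [T2Space X] [CompactSpace X] (D L : ℕ → Set X),
      (∀ n, ℵ₀ < #(D n)) → (∀ n, IsClosed (L n)) → (∀ n, #(L n) < #(D n)) →
      (∀ n, ∀ V : Set X, IsOpen V → L n ⊆ V → (D n \ V).Countable) → #X ≤ #(⋃ n, D n) →
      PointCountable X) ∧
    -- the criterion by pairs
    (∀ (X : Type) [TopologicalSpace X] [T2Space X] [CompactSpace X] (D : Set X) (r : X → X),
      ℵ₀ ≤ #X → #X ≤ #D → (∀ d ∈ D, r d ≠ d) →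
      (∀ f : C(X, ℝ), {d ∈ D | 1 < |f d - f (r d)|}.Countable) → PointCountable X) ∧
    -- closed subspaces of full cardinality
    (∀ (X : Type) [TopologicalSpace X] [T2Space X] [CompactSpace X] (Y : Set X), IsClosed Y →
      #X ≤ #Y → PointCountable Y → PointCountable X) := by
  refine ⟨?_, ?_, ?_, ?_, ?_, ?_, ?_⟩
  · intro X _ _ _ hsc hX
    exact Pool.Agent.R828.CP.hasBase_of_aleph_one hsc hX
  · intro X _ _ _ n h
    exact Pool.Agent.R828.CP.hasBase_of_height n h
  · intro X _ _ _ _ hsc
    exact Pool.Agent.R828.CP.hasBase_of_ordered hsc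
  · intro X _ _ _ S hS h1 h2
    exact Pool.Agent.R828.CP.hasBase_of_closed S hS h1 h2
  · intro X _ _ _ D L h1 h2 h3 h4 h5
    exact Pool.Agent.R828.CP.hasBase_of_seq D L h1 h2 h3 h4 h5
  · intro X _ _ _ D r hX hD hr hc
    exact Pool.Agent.R828.CP.hasBase_of_pairs D hX hD r hr hc
  · intro X _ _ _ Y hY hXY hb
    exact Pool.Agent.R828.CP.hasBase_of_subspace Y hY hXY hb

end Pool.Agent.Results.MP_c0a969_gt.SmallOrShort
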